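import Pool.Agent.H36.KBX.TRM
import Pool.Agent.H84.KBOX.StmtsU

/-!
# The Taylor step (row TSC of the board kbx)
-/

set_option autoImplicit false

namespace Pool.Agent.H3.KBX

open MvPolynomial

/-- The substitution of the affine map `y ↦ s (y - a)`. -/
noncomputable def aff {n : ℕ} (s : ℝ) (a : Fin n → ℝ) (Q : MvPolynomial (Fin n) ℝ) :
    MvPolynomial (Fin n) ℝ :=
  bind₁ (fun i => C s * (X i - C (a i))) Q

theorem eval_aff {n : ℕ} (s : ℝ) (a : Fin n → ℝ) (Q : MvPolynomial (Fin n) ℝ) (y : Fin n → ℝ) :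
    eval y (aff s a Q) = eval (fun i => s * (y i - a i)) Q := by
  have h := eval₂Hom_bind₁ (RingHom.id ℝ) y (fun i => C s * (X i - C (a i))) Q
  have h2 : (fun i => eval₂Hom (RingHom.id ℝ) y
      (C s * (X i - C (a i)) : MvPolynomial (Fin n) ℝ)) = fun i => s * (y i - a i) := by
    funext i
    rw [map_mul, map_sub, eval₂Hom_X', eval₂Hom_C, eval₂Hom_C]
    rfl
  rw [h2] at h
  exact h

theorem totalDegree_aff {n : ℕ} (s : ℝ) (a : Fin n → ℝ) (Q : MvPolynomial (Fin n) ℝ) :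
    (aff s a Q).totalDegree ≤ Q.totalDegree := by
  have h := Pool.KS3.SML.totalDegree_bind_le
    (fun i : Fin n => (C s * (X i - C (a i)) : MvPolynomial (Fin n) ℝ))
    1 (fun i => by
      refine (totalDegree_mul _ _).trans ?_
      rw [totalDegree_C, zero_add]
      refine (totalDegree_sub _ _).trans ?_
      rw [totalDegree_X, totalDegree_C]
      simp) Q
  rwa [one_mul] at h

theorem pderiv_aff {n : ℕ} (s : ℝ) (a : Fin n → ℝ) (i : Fin n) (Q : MvPolynomial (Fin n) ℝ) :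
    pderiv i (aff s a Q) = C s * aff s a (pderiv i Q) := by
  unfold aff
  induction Q using MvPolynomial.induction_on with
  | C r => simp
  | add p q hp hq => rw [map_add, map_add, hp, hq, map_add, map_add, mul_add]
  | mul_X p j hp =>
    have e1 : pderiv i (C s * (X j - C (a j)) : MvPolynomial (Fin n) ℝ) =
        C s * pderiv i (X j) := by
      rw [pderiv_mul, pderiv_C, zero_mul, zero_add, map_sub, pderiv_C, sub_zero]
    have e2 : pderiv i (p * X j) = pderiv i p * X j + p * pderiv i (X j) := pderiv_mul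
    rw [map_mul, pderiv_mul, hp, bind₁_X_right, e1, e2, map_add, map_mul, map_mul,
      bind₁_X_right]
    by_cases hij : j = i
    · subst hij
      rw [pderiv_X_self, map_one]
      ring
    · rw [pderiv_X_of_ne hij, map_zero]
      ring

theorem tsc_thm : Pool.KBX.TSCStmt := by
  intro n d hd
  obtain ⟨K, hK1, hK⟩ := Pool.Agent.H36.KBX.trm_thm n (n * d) d
  obtain ⟨c₀, hc₀⟩ := pow_unbounded_of_one_lt K (by norm_num : (1 : ℝ) < 2)
  refine ⟨c₀ + 1, ?_⟩
  intro L a k h e c c' G Q S₁ S₂ hh he hG hQ hQS haL hcc hD1 hD2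
  have hKc : K ≤ 2 ^ (c₀ + 1) := by
    rw [pow_succ]
    have : (0 : ℝ) < 2 ^ c₀ := by positivity
    linarith
  have hh1 : 1 ≤ h := by omega
  -- the corners
  set ar : Fin n → ℝ := Pool.KS3.crn (2 ^ L) (2 ^ (L - a)) c with har
  set br : Fin n → ℝ := Pool.KS3.crn (2 ^ L) (2 ^ (L - (a + 4 * h))) c' with hbr
  have har' : ∀ i, ar i = (c (some i) : ℝ) / 2 ^ a := by
    intro i
    rw [har]
    simp only [Pool.KS3.crn]
    push_cast
    have h1 : (2 : ℝ) ^ L = 2 ^ (L - a) * 2 ^ a := by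
      rw [← pow_add]; congr 1; omega
    rw [h1]
    field_simp
  have hbr' : ∀ i, br i = (c' (some i) : ℝ) / 2 ^ (a + 4 * h) := by
    intro i
    rw [hbr]
    simp only [Pool.KS3.crn]
    push_cast
    have h1 : (2 : ℝ) ^ L = 2 ^ (L - (a + 4 * h)) * 2 ^ (a + 4 * h) := by
      rw [← pow_add]; congr 1; omega
    rw [h1]
    field_simp
  set a' : Fin n → ℝ := fun i => 2 ^ a * (br i - ar i) with ha'
  have hq : ∀ i, a' i = (c' (some i) : ℝ) / 2 ^ (4 * h) - c (some i) := by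
    intro i
    rw [ha']
    simp only
    rw [har', hbr', pow_add]
    field_simp
  have h4h : (0 : ℝ) < 2 ^ (4 * h) := by positivity
  have hdm : ∀ i, (c' (some i) : ℝ) = 2 ^ (4 * h) * c (some i) +
      ((c' (some i) % 2 ^ (4 * h) : ℕ) : ℝ) := by
    intro i
    have h1 := Nat.div_add_mod (c' (some i)) (2 ^ (4 * h))
    rw [hcc (some i)] at h1
    have h2 : ((2 ^ (4 * h) * c (some i) + c' (some i) % 2 ^ (4 * h) : ℕ) : ℝ) =
        (c' (some i) : ℝ) := by rw [h1]
    push_cast at h2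
    linarith
  have hml : ∀ i, (((c' (some i) % 2 ^ (4 * h) : ℕ) : ℝ)) ≤ 2 ^ (4 * h) - 1 := by
    intro i
    have h1 : c' (some i) % 2 ^ (4 * h) < 2 ^ (4 * h) := Nat.mod_lt _ (by positivity)
    have h2 : ((c' (some i) % 2 ^ (4 * h) + 1 : ℕ) : ℝ) ≤ ((2 ^ (4 * h) : ℕ) : ℝ) := by
      exact_mod_cast h1
    push_cast at h2
    linarith
  have ha0 : ∀ i, 0 ≤ a' i ∧ a' i ≤ 1 - 1 / 2 ^ (4 * h) := by
    intro i
    rw [hq i, hdm i]
    have h0 : (0 : ℝ) ≤ ((c' (some i) % 2 ^ (4 * h) : ℕ) : ℝ) := Nat.cast_nonneg _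
    have h1 := hml i
    have e1 : (2 ^ (4 * h) * (c (some i) : ℝ) + ((c' (some i) % 2 ^ (4 * h) : ℕ) : ℝ)) /
        2 ^ (4 * h) - c (some i) = ((c' (some i) % 2 ^ (4 * h) : ℕ) : ℝ) / 2 ^ (4 * h) := by
      field_simp
      ring
    rw [e1]
    refine ⟨by positivity, ?_⟩
    rw [div_le_iff₀ h4h, sub_mul, one_div, inv_mul_cancel₀ h4h.ne', one_mul]
    exact h1
  have hr1 : (1 : ℝ) / 2 ^ (4 * h) ≤ 1 / 16 := by
    have h1 : (16 : ℝ) ≤ 2 ^ (4 * h) := by
      have h2 : (2 : ℝ) ^ 4 ≤ 2 ^ (4 * h) := pow_le_pow_right₀ (by norm_num) (by omega)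
      norm_num at h2
      exact h2
    exact one_div_le_one_div_of_le (by norm_num) h1
  obtain ⟨Q', hQ'd, hQ'v, hQ'D⟩ := hK Q a' (1 / 2 ^ (4 * h)) (2 ^ e) hQ
    (fun i => ⟨(ha0 i).1, (ha0 i).2.trans (by
      have : (0 : ℝ) < 1 / 2 ^ (4 * h) := by positivity
      linarith)⟩) (by positivity) (hr1.trans (by norm_num)) hQS
  -- the scale
  have h2a : (0 : ℝ) < 2 ^ a := by positivity
  have h2k : (0 : ℝ) < 2 ^ k := by positivity
  have hpw : (1 : ℝ) / 2 ^ (a + 4 * h) = 1 / 2 ^ a * (1 / 2 ^ (4 * h)) := by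
    rw [pow_add]; field_simp
  -- transport of the cubes
  have hba : ∀ i, |br i - ar i| ≤ 1 / 2 ^ a * (1 - 1 / 2 ^ (4 * h)) := by
    intro i
    have h1 : br i - ar i = 1 / 2 ^ a * a' i := by
      rw [ha']
      simp only
      field_simp
    rw [h1, abs_mul, abs_of_pos (by positivity : (0 : ℝ) < 1 / 2 ^ a), abs_of_nonneg (ha0 i).1]
    exact mul_le_mul_of_nonneg_left (ha0 i).2 (by positivity)
  have hbig : ∀ y : Fin n → ℝ, (∀ i, |y i - br i| ≤ 2 * (1 / 2 ^ (a + 4 * h))) →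
      ∀ i, |y i - ar i| ≤ 2 * (1 / 2 ^ a) := by
    intro y hy i
    have h1 : y i - ar i = (y i - br i) + (br i - ar i) := by ring
    rw [h1]
    refine (abs_add_le _ _).trans ?_
    have h2 := hy i
    have h3 := hba i
    rw [hpw] at h2
    have h5 : (0 : ℝ) < 1 / 2 ^ a := by positivity
    nlinarith [mul_le_mul_of_nonneg_left hr1 h5.le]
  have hz : ∀ y : Fin n → ℝ, (∀ i, |y i - br i| ≤ 2 * (1 / 2 ^ (a + 4 * h))) →
      ∀ i, |2 ^ a * (y i - ar i) - a' i| ≤ 2 * (1 / 2 ^ (4 * h)) := by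
    intro y hy i
    have h1 : 2 ^ a * (y i - ar i) - a' i = 2 ^ a * (y i - br i) := by
      rw [ha']
      simp only
      ring
    rw [h1, abs_mul, abs_of_pos h2a]
    have h2 := mul_le_mul_of_nonneg_left (hy i) h2a.le
    refine h2.trans (le_of_eq ?_)
    rw [hpw]
    field_simp
  set Z : MvPolynomial (Fin n) ℝ := aff (2 ^ a) ar Q' with hZ
  have hZ1 : ∀ (y : Fin n → ℝ) (i : Fin n), eval y (pderiv i Z) =
      2 ^ a * eval (fun j => 2 ^ a * (y j - ar j)) (pderiv i Q') := by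
    intro y i
    rw [hZ, pderiv_aff, eval_mul, eval_C, eval_aff]
  have hZ2 : ∀ (y : Fin n → ℝ) (i j : Fin n), eval y (pderiv i (pderiv j Z)) =
      2 ^ a * (2 ^ a * eval (fun j => 2 ^ a * (y j - ar j)) (pderiv i (pderiv j Q'))) := by
    intro y i j
    rw [hZ, pderiv_aff, pderiv_mul, pderiv_C, zero_mul, zero_add, pderiv_aff, eval_mul, eval_C,
      eval_mul, eval_C, eval_aff]
  set G' : MvPolynomial (Fin n) ℝ := G + C (1 / 2 ^ k) * Z with hG'
  have hKe : K * 2 ^ e ≤ 2 ^ (e + (c₀ + 1)) := by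
    rw [pow_add, mul_comm K]
    exact mul_le_mul_of_nonneg_left hKc (by positivity)
  refine ⟨G', ?_, ?_, ?_, ?_⟩
  · rw [hG']
    refine (totalDegree_add _ _).trans (max_le hG ?_)
    refine (totalDegree_mul _ _).trans ?_
    rw [totalDegree_C, zero_add]
    exact (totalDegree_aff _ _ _).trans hQ'd
  · intro y hy i
    have h1 := hD1 y (hbig y hy) i
    have h2 := (hQ'D (fun j => 2 ^ a * (y j - ar j)) (fun j => (hz y hy j).trans (by linarith))).1 i
    have e1 : eval y (pderiv i G') = eval y (pderiv i G) +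
        1 / 2 ^ k * (2 ^ a * eval (fun j => 2 ^ a * (y j - ar j)) (pderiv i Q')) := by
      rw [hG', map_add, map_add, pderiv_mul, pderiv_C, zero_mul, zero_add, eval_mul, eval_C, hZ1]
    rw [e1]
    refine (abs_add_le _ _).trans (add_le_add h1 ?_)
    rw [abs_mul, abs_mul, abs_of_pos h2a, abs_of_pos (by positivity : (0 : ℝ) < 1 / 2 ^ k)]
    have h3 : 2 ^ a * |eval (fun j => 2 ^ a * (y j - ar j)) (pderiv i Q')| ≤
        2 ^ a * 2 ^ (e + (c₀ + 1)) :=
      mul_le_mul_of_nonneg_left (h2.trans hKe) h2a.le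
    have h4 : (2 : ℝ) ^ a * 2 ^ (e + (c₀ + 1)) = 2 ^ (a + e + (c₀ + 1)) := by
      rw [← pow_add, add_assoc]
    rw [h4] at h3
    rw [div_mul_eq_mul_div, one_mul]
    exact div_le_div_of_nonneg_right h3 h2k.le
  · intro y hy i j
    have h1 := hD2 y (hbig y hy) i j
    have h2 := (hQ'D (fun j => 2 ^ a * (y j - ar j))
      (fun j => (hz y hy j).trans (by linarith))).2 i j
    have e1 : eval y (pderiv i (pderiv j G')) = eval y (pderiv i (pderiv j G)) +
        1 / 2 ^ k * (2 ^ a * (2 ^ a *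
          eval (fun j => 2 ^ a * (y j - ar j)) (pderiv i (pderiv j Q')))) := by
      rw [hG', map_add, map_add, map_add, pderiv_mul, pderiv_C, zero_mul, zero_add, pderiv_mul,
        pderiv_C, zero_mul, zero_add, eval_mul, eval_C, hZ2]
    rw [e1]
    refine (abs_add_le _ _).trans (add_le_add h1 ?_)
    rw [abs_mul, abs_mul, abs_mul, abs_of_pos h2a,
      abs_of_pos (by positivity : (0 : ℝ) < 1 / 2 ^ k)]
    have h3 : 2 ^ a * (2 ^ a *
        |eval (fun j => 2 ^ a * (y j - ar j)) (pderiv i (pderiv j Q'))|) ≤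
        2 ^ a * (2 ^ a * 2 ^ (e + (c₀ + 1))) :=
      mul_le_mul_of_nonneg_left (mul_le_mul_of_nonneg_left (h2.trans hKe) h2a.le) h2a.le
    have h4 : (2 : ℝ) ^ a * (2 ^ a * 2 ^ (e + (c₀ + 1))) = 2 ^ (2 * a + e + (c₀ + 1)) := by
      rw [← pow_add, ← pow_add]; congr 1; ring
    rw [h4] at h3
    rw [div_mul_eq_mul_div, one_mul]
    exact div_le_div_of_nonneg_right h3 h2k.le
  · intro y N hy hN
    have hy2 : ∀ i, |y i - br i| ≤ 2 * (1 / 2 ^ (a + 4 * h)) := fun i => (hy i).trans (by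
      have : (0 : ℝ) < 1 / 2 ^ (a + 4 * h) := by positivity
      linarith)
    have hz1 : ∀ i, |2 ^ a * (y i - ar i) - a' i| ≤ 1 / 2 ^ (4 * h) := by
      intro i
      have h1 : 2 ^ a * (y i - ar i) - a' i = 2 ^ a * (y i - br i) := by
        rw [ha']
        simp only
        ring
      rw [h1, abs_mul, abs_of_pos h2a]
      have h2 := mul_le_mul_of_nonneg_left (hy i) h2a.le
      refine h2.trans (le_of_eq ?_)
      rw [hpw]
      field_simp
    have h1 := hQ'v _ hz1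
    have e1 : eval y G' = eval y G + 1 / 2 ^ k * eval (fun i => 2 ^ a * (y i - ar i)) Q' := by
      rw [hG', map_add, eval_mul, eval_C, hZ, eval_aff]
    have e2 : N - eval y G' = 1 / 2 ^ k * ((2 ^ k * (N - eval y G) -
        eval (fun i => 2 ^ a * (y i - ar i)) Q) +
        (eval (fun i => 2 ^ a * (y i - ar i)) Q -
          eval (fun i => 2 ^ a * (y i - ar i)) Q')) := by
      rw [e1]
      field_simp
      ring
    rw [e2, abs_mul, abs_of_pos (by positivity : (0 : ℝ) < 1 / 2 ^ k)]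
    have h2 : |(2 ^ k * (N - eval y G) - eval (fun i => 2 ^ a * (y i - ar i)) Q) +
        (eval (fun i => 2 ^ a * (y i - ar i)) Q -
          eval (fun i => 2 ^ a * (y i - ar i)) Q')| ≤
        1 / 2 ^ (6 * e) + K * (1 / 2 ^ (4 * h)) ^ (d + 1) * 2 ^ e :=
      (abs_add_le _ _).trans (add_le_add hN h1)
    have h3 : (1 / 2 ^ (4 * h) : ℝ) ^ (d + 1) = 1 / 2 ^ (4 * e) := by
      rw [div_pow, one_pow, ← pow_mul, he]
      congr 2
      ring
    have he4 : 4 * (c₀ + 1) ≤ e := by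
      rw [he]
      nlinarith
    have h5 : K * (1 / 2 ^ (4 * e)) * 2 ^ e ≤ 1 / 2 ^ (2 * e + 1) := by
      have e3 : K * (1 / 2 ^ (4 * e)) * 2 ^ e = K / 2 ^ (3 * e) := by
        have : (2 : ℝ) ^ (4 * e) = 2 ^ (3 * e) * 2 ^ e := by rw [← pow_add]; congr 1; ring
        rw [this]
        field_simp
      rw [e3, div_le_div_iff₀ (by positivity) (by positivity), one_mul]
      refine (mul_le_mul_of_nonneg_right hKc (by positivity)).trans ?_
      rw [← pow_add]
      exact pow_le_pow_right₀ (by norm_num) (by omega)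
    have h6 : (1 : ℝ) / 2 ^ (6 * e) ≤ 1 / 2 ^ (2 * e + 1) :=
      one_div_le_one_div_of_le (by positivity) (pow_le_pow_right₀ (by norm_num) (by omega))
    have h7 : (1 : ℝ) / 2 ^ (2 * e + 1) + 1 / 2 ^ (2 * e + 1) = 1 / 2 ^ (2 * e) := by
      rw [pow_succ]
      field_simp
      norm_num
    rw [h3] at h2
    have h8 : (1 : ℝ) / 2 ^ (k + 2 * e) = 1 / 2 ^ k * (1 / 2 ^ (2 * e)) := by
      rw [pow_add]; field_simp
    rw [h8]
    exact mul_le_mul_of_nonneg_left (h2.trans (by linarith)) (by positivity)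

end Pool.Agent.H3.KBX
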